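import Mathlib

set_option autoImplicit false
open scoped Pointwise

namespace Pool.Agent.H95.SevenRed

/-- The plane without its Euclidean norm. -/
def W : Type := EuclideanSpace ℝ (Fin 2)

noncomputable instance : AddCommGroup W := inferInstanceAs (AddCommGroup (EuclideanSpace ℝ (Fin 2)))
noncomputable instance : Module ℝ W := inferInstanceAs (Module ℝ (EuclideanSpace ℝ (Fin 2)))

/-- The statement on seven points in a normed plane. -/
def SevenPoints : Prop :=
    ∀ (E : Type) [NormedAddCommGroup E] [NormedSpace ℝ E],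
      Module.finrank ℝ E = 2 →
      ∀ p : Fin 7 → E, Function.Injective p →
        ∃ i j k l : Fin 7, k ≠ l ∧ 2 * dist (p k) (p l) ≤ dist (p i) (p j)

abbrev E2 := EuclideanSpace ℝ (Fin 2)

/-- seven points for an arbitrary gauge -/
theorem seven_gauge (H : SevenPoints) (K : Set E2) (hK : Convex ℝ K) (hsymm : ∀ x ∈ K, -x ∈ K)
    (hb : Bornology.IsBounded K) (h0 : K ∈ nhds (0 : E2)) (p : Fin 7 → E2)
    (hp : Function.Injective p) :
    ∃ i j k l : Fin 7, k ≠ l ∧ 2 * gauge K (p k - p l) ≤ gauge K (p i - p j) := by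
  have habs : Absorbent ℝ K := absorbent_nhds_zero h0
  have hne : (0 : E2) ∈ K := mem_of_mem_nhds h0
  have hbal : Balanced ℝ K := by
    rw [balanced_iff_smul_mem]
    intro a ha x hx
    rcases le_total 0 a with h | h
    · have h1 : a ≤ 1 := by rw [Real.norm_eq_abs, abs_of_nonneg h] at ha; exact ha
      have := hK hx hne h (by linarith : (0 : ℝ) ≤ 1 - a) (by ring)
      simpa using this
    · have h1 : -a ≤ 1 := by rw [Real.norm_eq_abs, abs_of_nonpos h] at ha; exact ha
      have := hK (hsymm x hx) hne (by linarith : (0 : ℝ) ≤ -a) (by linarith : (0 : ℝ) ≤ 1 - (-a))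
        (by ring)
      simpa using this
  let _ : Norm W := ⟨fun x => gauge K (x : E2)⟩
  have hnorm : ∀ x : W, ‖x‖ = gauge K (x : E2) := fun x => rfl
  have core : NormedSpace.Core ℝ W :=
    { norm_nonneg := fun x => gauge_nonneg _
      norm_smul := fun c x => by
        rw [hnorm, hnorm]
        exact gauge_smul hbal c (x : E2)
      norm_triangle := fun x y => gauge_add_le hK habs _ _
      norm_eq_zero_iff := fun x => by
        rw [hnorm]
        exact gauge_eq_zero habs ((NormedSpace.isVonNBounded_iff ℝ).2 hb) }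
  let _ : NormedAddCommGroup W := NormedAddCommGroup.ofCore core
  let _ : NormedSpace ℝ W := NormedSpace.ofCore core
  have hfin : Module.finrank ℝ W = 2 := by
    have : Module.finrank ℝ E2 = 2 := by simp
    exact this
  obtain ⟨i, j, k, l, hkl, h⟩ := H W hfin p hp
  refine ⟨i, j, k, l, hkl, ?_⟩
  have hd : ∀ a b : W, dist a b = gauge K ((a : E2) - (b : E2)) := by
    intro a b
    rw [dist_eq_norm]
    rfl
  rw [hd, hd] at h
  exact h

theorem seven_translates (H : SevenPoints) (C : Set E2) (hC : Convex ℝ C) (hcomp : IsCompact C)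
    (hint : (interior C).Nonempty) (t : ℝ) (ht : 1 / 3 < t) (ht1 : t < 1) (v : Fin 7 → E2)
    (hv : ∀ i, v i +ᵥ (t • C) ⊆ C)
    (hd : Pairwise (fun i j => Disjoint (interior (v i +ᵥ (t • C))) (interior (v j +ᵥ (t • C))))) :
    False := by
  have ht0 : 0 < t := by linarith
  have hne : C.Nonempty := hint.mono interior_subset
  obtain ⟨q, hq⟩ := hint
  -- fixed points
  have hfix : ∀ i, ∃ c ∈ C, v i = (1 - t) • c := by
    intro i
    obtain ⟨c0, hc0⟩ := hne
    set c : E2 := (1 - t)⁻¹ • v i with hc
    have h1t : (1 - t) ≠ 0 := by linarith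
    have hvc : v i = (1 - t) • c := by
      rw [hc, smul_smul, mul_inv_cancel₀ h1t, one_smul]
    refine ⟨c, ?_, hvc⟩
    have hmem : ∀ n : ℕ, c + t ^ n • (c0 - c) ∈ C := by
      intro n
      induction n with
      | zero => simpa using hc0
      | succ n ih =>
        have h2 : v i +ᵥ (t • (c + t ^ n • (c0 - c))) ∈ C := by
          apply hv i
          exact ⟨_, Set.smul_mem_smul_set ih, rfl⟩
        have h3 : v i +ᵥ (t • (c + t ^ n • (c0 - c))) = c + t ^ (n + 1) • (c0 - c) := by
          rw [vadd_eq_add, hvc]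
          rw [pow_succ]
          module
        rwa [h3] at h2
    have hlim : Filter.Tendsto (fun n : ℕ => c + t ^ n • (c0 - c)) Filter.atTop
        (nhds (c + (0 : ℝ) • (c0 - c))) := by
      apply Filter.Tendsto.add tendsto_const_nhds
      apply Filter.Tendsto.smul _ tendsto_const_nhds
      exact tendsto_pow_atTop_nhds_zero_of_lt_one ht0.le ht1
    have := hcomp.isClosed.mem_of_tendsto hlim (Filter.Eventually.of_forall hmem)
    simpa using this
  set K : Set E2 := C - C with hKdef
  have hK : Convex ℝ K := hC.sub hC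
  have hsymm : ∀ x ∈ K, -x ∈ K := by
    rintro x ⟨a, ha, b, hb, rfl⟩
    exact ⟨b, hb, a, ha, by simp⟩
  have hbd : Bornology.IsBounded K := by
    have h1 : IsCompact K := by
      rw [hKdef, sub_eq_add_neg]
      exact hcomp.add hcomp.neg
    exact h1.isBounded
  have h0 : K ∈ nhds (0 : E2) := by
    have h1 : C - {q} ∈ nhds (0 : E2) := by
      have h2 : C ∈ nhds q := mem_interior_iff_mem_nhds.1 hq
      have h3 : (fun x : E2 => x + q) ⁻¹' C ∈ nhds (0 : E2) := by
        apply (continuous_id.add continuous_const).continuousAt.preimage_mem_nhds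
        simpa using h2
      refine Filter.mem_of_superset h3 ?_
      intro x hx
      exact ⟨x + q, hx, q, rfl, by simp⟩
    refine Filter.mem_of_superset h1 ?_
    exact Set.sub_subset_sub_left (Set.singleton_subset_iff.2 (interior_subset hq))
  have habs : Absorbent ℝ K := absorbent_nhds_zero h0
  -- upper bound
  have hup : ∀ i j, gauge K (v i - v j) ≤ 1 - t := by
    intro i j
    obtain ⟨a, ha, hva⟩ := hfix i
    obtain ⟨b, hb, hvb⟩ := hfix j
    have : v i - v j = (1 - t) • (a - b) := by rw [hva, hvb, smul_sub]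
    rw [this]
    apply gauge_le_of_mem (by linarith)
    exact Set.smul_mem_smul_set ⟨a, ha, b, hb, rfl⟩
  -- lower bound
  have hlow : ∀ i j, i ≠ j → t ≤ gauge K (v i - v j) := by
    intro i j hij
    by_contra hlt
    push Not at hlt
    obtain ⟨s, hs0, hst, hs⟩ := exists_lt_of_gauge_lt habs hlt
    obtain ⟨k, hk, hks⟩ := hs
    obtain ⟨c, hc, c', hc', rfl⟩ := hk
    have hks' : s • (c - c') = v i - v j := hks
    have hr0 : 0 < s / t := div_pos hs0 ht0
    have hr1 : s / t < 1 := (div_lt_one ht0).2 hst
    have ha : (s / t) • c' + (1 - s / t) • q ∈ interior C :=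
      hC.combo_self_interior_mem_interior hc' hq hr0.le (by linarith) (by ring)
    have hb : (s / t) • c + (1 - s / t) • q ∈ interior C :=
      hC.combo_self_interior_mem_interior hc hq hr0.le (by linarith) (by ring)
    have hint : ∀ i, interior (v i +ᵥ (t • C)) = v i +ᵥ (t • interior C) := by
      intro i
      rw [interior_vadd, interior_smul₀ ht0.ne']
    have h1 : v i + t • ((s / t) • c' + (1 - s / t) • q) ∈ interior (v i +ᵥ (t • C)) := by
      rw [hint]
      exact ⟨_, Set.smul_mem_smul_set ha, rfl⟩
    have h2 : v i + t • ((s / t) • c' + (1 - s / t) • q) ∈ interior (v j +ᵥ (t • C)) := by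
      rw [hint]
      refine ⟨_, Set.smul_mem_smul_set hb, ?_⟩
      show v j + t • ((s / t) • c + (1 - s / t) • q) = v i + t • ((s / t) • c' + (1 - s / t) • q)
      have h3 : t • ((s / t) • c + (1 - s / t) • q) - t • ((s / t) • c' + (1 - s / t) • q)
          = v i - v j := by
        rw [← hks', ← smul_sub]
        have : (s / t) • c + (1 - s / t) • q - ((s / t) • c' + (1 - s / t) • q)
            = (s / t) • (c - c') := by
          rw [smul_sub]; abel
        rw [this, smul_smul, mul_div_cancel₀ _ ht0.ne']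
      have h4 : t • ((s / t) • c + (1 - s / t) • q) =
          v i - v j + t • ((s / t) • c' + (1 - s / t) • q) := by
        rw [← h3]; abel
      rw [h4]; abel
    exact Set.disjoint_left.1 (hd hij) h1 h2
  have hinj : Function.Injective v := by
    intro i j hij
    by_contra hne
    have := hlow i j hne
    rw [hij, sub_self, gauge_zero] at this
    linarith
  obtain ⟨i, j, k, l, hkl, h⟩ := seven_gauge H K hK hsymm hbd h0 v hinj
  have h1 := hup i j
  have h2 := hlow k l hkl
  linarith

theorem seven_main (H : SevenPoints) :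
    ∀ C : Set (EuclideanSpace ℝ (Fin 2)), Convex ℝ C → IsCompact C → (interior C).Nonempty →
      ∀ t : ℝ, 1 / 3 < t →
        ¬ ∃ v : Fin 7 → EuclideanSpace ℝ (Fin 2),
          (∀ i, v i +ᵥ (t • C) ⊆ C) ∧
          Pairwise (fun i j => Disjoint (interior (v i +ᵥ (t • C))) (interior (v j +ᵥ (t • C)))) := by
  intro C hC hcomp hint t ht
  rintro ⟨v, hv, hd⟩
  rcases lt_or_ge t 1 with h1 | h1
  · exact seven_translates H C hC hcomp hint t ht h1 v hv hd
  · -- shrink to 1/2
    obtain ⟨q, hq⟩ := hint
    have hqC := interior_subset hq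
    have hsub : ∀ i, (v i + (t - 1 / 2) • q) +ᵥ ((1 / 2 : ℝ) • C) ⊆ v i +ᵥ (t • C) := by
      intro i x hx
      obtain ⟨y, ⟨c, hc, rfl⟩, rfl⟩ := hx
      have ht0 : 0 < t := by linarith
      have hmem : ((1 / 2) / t) • c + (1 - (1 / 2) / t) • q ∈ C := by
        apply hC hc hqC
        · positivity
        · have : (1 / 2) / t ≤ 1 := by rw [div_le_one ht0]; linarith
          linarith
        · ring
      refine ⟨t • (((1 / 2) / t) • c + (1 - (1 / 2) / t) • q), Set.smul_mem_smul_set hmem, ?_⟩
      show v i + t • (((1 / 2) / t) • c + (1 - (1 / 2) / t) • q) =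
        v i + (t - 1 / 2) • q + (1 / 2 : ℝ) • c
      have e1 : t * ((1 / 2) / t) = 1 / 2 := by field_simp
      have e2 : t * (1 - (1 / 2) / t) = t - 1 / 2 := by field_simp
      rw [smul_add, smul_smul, smul_smul, e1, e2]
      abel
    refine seven_translates H C hC hcomp ⟨q, hq⟩ (1 / 2) (by norm_num) (by norm_num)
      (fun i => v i + (t - 1 / 2) • q) (fun i => (hsub i).trans (hv i)) ?_
    intro i j hij
    exact (hd hij).mono (interior_mono (hsub i)) (interior_mono (hsub j))

end Pool.Agent.H95.SevenRed
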